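import Mathlib

/-!
# Classes of group representations definable by formulas of action

For every nontrivial ring `K` the class of all representations `(V, G)` having a nonzero
`G`-fixed vector is abstract, axiomatizable (by one sentence), saturated and right hereditary,
but it is not defined by any set of formulas of action.
-/

universe u v w a b

namespace Pool.Agent.Results.MP_98e941_al.FixedVectorClass

/-- A representation `(V, G)` over the ring `K`: a `K`-module `V` with a right action of a group
`G` by `K`-module automorphisms (a homomorphism from `G` to the opposite of `Aut_K V`),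
not necessarily faithful. -/
structure Rep (K : Type u) [Ring K] where
  /-- the module -/
  V : Type v
  /-- the group -/
  G : Type w
  [addCommGroup : AddCommGroup V]
  [module : Module K V]
  [group : Group G]
  /-- the action -/
  hom : G →* (V ≃ₗ[K] V)ᵐᵒᵖ

attribute [instance] Rep.addCommGroup Rep.module Rep.group

variable {K : Type u} [Ring K]

/-- `v ∘ g`. -/
def Rep.act (ρ : Rep.{u, v, w} K) (x : ρ.V) (g : ρ.G) : ρ.V := (ρ.hom g).unop x

/-- `v ∘ u` for an element `u = ∑ k_f f` of a group algebra `KF`, where `h : F → G` is a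
homomorphism: it is `∑ k_f (v ∘ h f)`. -/
noncomputable def Rep.actAlg (ρ : Rep.{u, v, w} K) {F : Type b} [Group F] (h : F →* ρ.G)
    (x : ρ.V) (t : MonoidAlgebra K F) : ρ.V :=
  t.coeff.sum fun f k => k • ρ.act x (h f)

/-- First-order formulas about representations, with module variables in `X` and group variables
in `Y`. `elemAct t` is the elementary formula `∑ x ∘ t(x) ≡ 0` of type (1), where `t` is a
finitely supported family of elements of the group algebra `KF(Y)`; `elemGrp f` is the
elementary formula `f ≡ 1` of type (2). -/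
inductive Formula (K : Type u) [Ring K] (X : Type a) (Y : Type b) : Type (max u a b)
  | elemAct (t : X →₀ MonoidAlgebra K (FreeGroup Y)) : Formula K X Y
  | elemGrp (f : FreeGroup Y) : Formula K X Y
  | and (φ ψ : Formula K X Y) : Formula K X Y
  | or (φ ψ : Formula K X Y) : Formula K X Y
  | not (φ : Formula K X Y) : Formula K X Y
  | allX (x : X) (φ : Formula K X Y) : Formula K X Y
  | exX (x : X) (φ : Formula K X Y) : Formula K X Y
  | allY (y : Y) (φ : Formula K X Y) : Formula K X Y
  | exY (y : Y) (φ : Formula K X Y) : Formula K X Y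

variable {X : Type a} {Y : Type b}

open Classical in
/-- Satisfaction of a formula in `ρ = (V, G)` under an assignment `X → V`, `Y → G`. -/
noncomputable def Sat (ρ : Rep.{u, v, w} K) : Formula K X Y → (X → ρ.V) → (Y → ρ.G) → Prop
  | .elemAct t, p, q => (t.sum fun x u => ρ.actAlg (FreeGroup.lift q) (p x) u) = 0
  | .elemGrp f, _, q => FreeGroup.lift q f = 1
  | .and φ ψ, p, q => Sat ρ φ p q ∧ Sat ρ ψ p q
  | .or φ ψ, p, q => Sat ρ φ p q ∨ Sat ρ ψ p q
  | .not φ, p, q => ¬ Sat ρ φ p q
  | .allX x φ, p, q => ∀ m : ρ.V, Sat ρ φ (Function.update p x m) q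
  | .exX x φ, p, q => ∃ m : ρ.V, Sat ρ φ (Function.update p x m) q
  | .allY y φ, p, q => ∀ g : ρ.G, Sat ρ φ p (Function.update q y g)
  | .exY y φ, p, q => ∃ g : ρ.G, Sat ρ φ p (Function.update q y g)

/-- A formula holds in `ρ` if it is satisfied under every assignment. -/
def Holds (ρ : Rep.{u, v, w} K) (φ : Formula K X Y) : Prop :=
  ∀ (p : X → ρ.V) (q : Y → ρ.G), Sat ρ φ p q

/-- Formulas of action: built from elementary formulas of type (1) only, with `∧, ∨, ¬` and
quantifiers over module variables only. -/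
def Formula.IsAction : Formula K X Y → Prop
  | .elemAct _ => True
  | .elemGrp _ => False
  | .and φ ψ => φ.IsAction ∧ ψ.IsAction
  | .or φ ψ => φ.IsAction ∧ ψ.IsAction
  | .not φ => φ.IsAction
  | .allX _ φ => φ.IsAction
  | .exX _ φ => φ.IsAction
  | .allY _ _ => False
  | .exY _ _ => False

/-- `T'`, the class of all representations in which every formula of `T` holds. -/
def ModelsOf (T : Set (Formula K X Y)) : Set (Rep.{u, v, w} K) :=
  {ρ | ∀ φ ∈ T, Holds ρ φ}

/-- The class is defined by some set of first-order formulas. -/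
def Axiomatizable (X : Type a) (Y : Type b) (C : Set (Rep.{u, v, w} K)) : Prop :=
  ∃ T : Set (Formula K X Y), C = ModelsOf T

/-- The class is defined by some set of formulas of action. -/
def DefinedByAction (X : Type a) (Y : Type b) (C : Set (Rep.{u, v, w} K)) : Prop :=
  ∃ T : Set (Formula K X Y), (∀ φ ∈ T, φ.IsAction) ∧ C = ModelsOf T

/-- Isomorphism of representations. -/
def Isom (ρ σ : Rep.{u, v, w} K) : Prop :=
  ∃ (e : ρ.V ≃ₗ[K] σ.V) (f : ρ.G ≃* σ.G), ∀ x g, e (ρ.act x g) = σ.act (e x) (f g)

/-- The class is closed under isomorphism. -/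
def Abstract (C : Set (Rep.{u, v, w} K)) : Prop :=
  ∀ ρ σ : Rep.{u, v, w} K, Isom ρ σ → ρ ∈ C → σ ∈ C

/-- The subrepresentation `(V, H)` for a subgroup `H ≤ G`. -/
def Rep.restrict (ρ : Rep.{u, v, w} K) (H : Subgroup ρ.G) : Rep.{u, v, w} K where
  V := ρ.V
  G := H
  hom := ρ.hom.comp H.subtype

/-- The faithful representation `(V, G/N)`, `N` the kernel of the action. -/
def Rep.faithful (ρ : Rep.{u, v, w} K) : Rep.{u, v, w} K where
  V := ρ.V
  G := ρ.G ⧸ ρ.hom.ker
  hom := QuotientGroup.kerLift ρ.hom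

/-- `ρ ∈ C ↔ ρ̄ ∈ C` for every `ρ`. -/
def Saturated (C : Set (Rep.{u, v, w} K)) : Prop :=
  ∀ ρ : Rep.{u, v, w} K, ρ ∈ C ↔ ρ.faithful ∈ C

/-- `(V, G) ∈ C` implies `(V, H) ∈ C` for every subgroup `H ≤ G`. -/
def RightHereditary (C : Set (Rep.{u, v, w} K)) : Prop :=
  ∀ ρ ∈ C, ∀ H : Subgroup ρ.G, ρ.restrict H ∈ C

/-! ## The class of representations with a nonzero fixed vector -/

/-- Representations with a nonzero fixed vector. -/
def Fix (K : Type u) [Ring K] : Set (Rep.{u, v, w} K) :=
  {ρ | ∃ x : ρ.V, x ≠ 0 ∧ ∀ g : ρ.G, ρ.act x g = x}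

lemma act_one (ρ : Rep.{u, v, w} K) (x : ρ.V) : ρ.act x 1 = x := by
  simp [Rep.act]

lemma actAlg_single (ρ : Rep.{u, v, w} K) {F : Type b} [Group F] (h : F →* ρ.G)
    (x : ρ.V) (f : F) (k : K) :
    ρ.actAlg h x (MonoidAlgebra.single f k) = k • ρ.act x (h f) := by
  unfold Rep.actAlg
  rw [MonoidAlgebra.coeff_single]
  exact Finsupp.sum_single_index (by simp)

lemma actAlg_sub (ρ : Rep.{u, v, w} K) {F : Type b} [Group F] (h : F →* ρ.G)
    (x : ρ.V) (s t : MonoidAlgebra K F) :
    ρ.actAlg h x (s - t) = ρ.actAlg h x s - ρ.actAlg h x t := by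
  unfold Rep.actAlg
  rw [MonoidAlgebra.coeff_sub]
  exact Finsupp.sum_sub_index (h := fun f k => k • ρ.act x (h f)) (fun f k k' => sub_smul _ _ _)

lemma abstract_fix : Abstract (Fix.{u, v, w} K) := by
  rintro ρ σ ⟨e, f, hef⟩ ⟨x, hx, hfix⟩
  refine ⟨e x, by simpa using hx, fun g => ?_⟩
  have := hef x (f.symm g)
  rw [hfix] at this
  rw [MulEquiv.apply_symm_apply] at this
  exact this.symm

lemma rightHereditary_fix : RightHereditary (Fix.{u, v, w} K) := by
  rintro ρ ⟨x, hx, hfix⟩ H
  exact ⟨x, hx, fun g => hfix (show H from g)⟩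

lemma saturated_fix : Saturated (Fix.{u, v, w} K) := by
  intro ρ
  constructor
  · rintro ⟨x, hx, hfix⟩
    refine ⟨x, hx, fun g => ?_⟩
    obtain ⟨g, rfl⟩ := QuotientGroup.mk_surjective g
    exact hfix g
  · rintro ⟨x, hx, hfix⟩
    exact ⟨x, hx, fun g => hfix (QuotientGroup.mk g)⟩

/-- The sentence `∃ x, ¬ (x ≡ 0) ∧ ∀ y, x ∘ (y - 1) ≡ 0`. -/
noncomputable def fixSentence (x : X) (y : Y) : Formula K X Y :=
  .exX x (.and (.not (.elemAct (Finsupp.single x (MonoidAlgebra.single 1 1))))
    (.allY y (.elemAct (Finsupp.single x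
      (MonoidAlgebra.single (FreeGroup.of y) 1 - MonoidAlgebra.single 1 1)))))

lemma sat_fixSentence (ρ : Rep.{u, v, w} K) (x : X) (y : Y) (p : X → ρ.V) (q : Y → ρ.G) :
    Sat ρ (fixSentence (K := K) x y) p q ↔ ρ ∈ Fix K := by
  have h0 : ∀ (z : ρ.V) (q : Y → ρ.G), ρ.actAlg (FreeGroup.lift q) z 0 = 0 := by
    intro z q
    simp [Rep.actAlg]
  simp only [fixSentence, Sat]
  constructor
  · rintro ⟨m, hm, hfix⟩
    refine ⟨m, ?_, fun g => ?_⟩
    · rintro rfl
      apply hm
      rw [Finsupp.sum_single_index (by exact h0 _ _), actAlg_single]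
      simp [act_one]
    · have := hfix g
      rw [Finsupp.sum_single_index (by exact h0 _ _), actAlg_sub, actAlg_single, actAlg_single] at this
      simp only [Function.update_self, FreeGroup.lift_apply_of, map_one, act_one, one_smul] at this
      exact sub_eq_zero.mp this
  · rintro ⟨m, hm, hfix⟩
    refine ⟨m, ?_, fun g => ?_⟩
    · rw [Finsupp.sum_single_index (by exact h0 _ _), actAlg_single]
      simpa [act_one] using hm
    · rw [Finsupp.sum_single_index (by exact h0 _ _), actAlg_sub, actAlg_single, actAlg_single]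
      simp only [Function.update_self, FreeGroup.lift_apply_of, map_one, act_one, one_smul]
      exact sub_eq_zero.mpr (hfix g)

lemma axiomatizable_fix [Nonempty X] [Nonempty Y] :
    Axiomatizable X Y (Fix.{u, v, w} K) := by
  obtain ⟨x⟩ := ‹Nonempty X›
  obtain ⟨y⟩ := ‹Nonempty Y›
  refine ⟨{fixSentence x y}, ?_⟩
  ext ρ
  simp only [ModelsOf, Set.mem_singleton_iff, forall_eq, Set.mem_ofPred_eq, Holds]
  constructor
  · intro h p q
    exact (sat_fixSentence ρ x y p q).mpr h
  · intro h
    exact (sat_fixSentence ρ x y (fun _ => 0) (fun _ => 1)).mp (h _ _)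

/-! ## Formulas of action only see finitely many group elements -/

open Classical in
/-- A finite set of group variables such that satisfaction of `φ` depends only on them. -/
noncomputable def gvars : Formula K X Y → Finset Y
  | .elemAct t => t.support.biUnion fun x => (t x).coeff.support.biUnion fun f =>
      (f.toWord.map Prod.fst).toFinset
  | .elemGrp f => (f.toWord.map Prod.fst).toFinset
  | .and φ ψ => gvars φ ∪ gvars ψ
  | .or φ ψ => gvars φ ∪ gvars ψ
  | .not φ => gvars φ
  | .allX _ φ => gvars φ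
  | .exX _ φ => gvars φ
  | .allY _ φ => gvars φ
  | .exY _ φ => gvars φ

open Classical in
lemma lift_congr {G : Type w} [Group G] (f : FreeGroup Y) (q q' : Y → G)
    (h : ∀ y ∈ (f.toWord.map Prod.fst).toFinset, q y = q' y) :
    FreeGroup.lift q f = FreeGroup.lift q' f := by
  have key : ∀ L : List (Y × Bool), (∀ y ∈ (L.map Prod.fst).toFinset, q y = q' y) →
      FreeGroup.lift q (FreeGroup.mk L) = FreeGroup.lift q' (FreeGroup.mk L) := by
    intro L hL
    rw [FreeGroup.lift_mk, FreeGroup.lift_mk]
    congr 1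
    apply List.map_congr_left
    rintro ⟨y, c⟩ hyc
    have : q y = q' y := hL y (by
      rw [List.mem_toFinset, List.mem_map]
      exact ⟨(y, c), hyc, rfl⟩)
    simp [this]
  have := key f.toWord h
  rwa [FreeGroup.mk_toWord] at this

open Classical in
lemma sat_congr (ρ : Rep.{u, v, w} K) (φ : Formula K X Y) (hφ : φ.IsAction)
    (p : X → ρ.V) (q q' : Y → ρ.G) (h : ∀ y ∈ gvars φ, q y = q' y) :
    Sat ρ φ p q ↔ Sat ρ φ p q' := by
  induction φ generalizing p with
  | elemAct t =>
    simp only [Sat]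
    suffices hs : (t.sum fun x u => ρ.actAlg (FreeGroup.lift q) (p x) u)
        = t.sum fun x u => ρ.actAlg (FreeGroup.lift q') (p x) u by rw [hs]
    apply Finsupp.sum_congr
    intro x hx
    unfold Rep.actAlg
    apply Finsupp.sum_congr
    intro f hf
    rw [lift_congr f q q']
    intro y hy
    apply h
    simp only [gvars, Finset.mem_biUnion]
    exact ⟨x, hx, f, hf, hy⟩
  | elemGrp f => exact absurd hφ (by simp [Formula.IsAction])
  | and φ ψ ih1 ih2 =>
    simp only [Sat]
    rw [ih1 hφ.1 p (fun y hy => h y (by simp [gvars, hy])),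
      ih2 hφ.2 p (fun y hy => h y (by simp [gvars, hy]))]
  | or φ ψ ih1 ih2 =>
    simp only [Sat]
    rw [ih1 hφ.1 p (fun y hy => h y (by simp [gvars, hy])),
      ih2 hφ.2 p (fun y hy => h y (by simp [gvars, hy]))]
  | not φ ih =>
    simp only [Sat]
    rw [ih hφ p h]
  | allX x φ ih =>
    simp only [Sat]
    exact forall_congr' fun m => ih hφ _ h
  | exX x φ ih =>
    simp only [Sat]
    exact exists_congr fun m => ih hφ _ h
  | allY y φ => exact absurd hφ (by simp [Formula.IsAction])
  | exY y φ => exact absurd hφ (by simp [Formula.IsAction])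

lemma act_restrict (ρ : Rep.{u, v, w} K) (H : Subgroup ρ.G) (x : ρ.V) (g : H) :
    (ρ.restrict H).act x g = ρ.act x (g : ρ.G) := rfl

open Classical in
lemma sat_restrict (ρ : Rep.{u, v, w} K) (H : Subgroup ρ.G) (φ : Formula K X Y)
    (hφ : φ.IsAction) (p : X → ρ.V) (q : Y → H) :
    Sat (ρ.restrict H) φ p q ↔ Sat ρ φ p (fun y => (q y : ρ.G)) := by
  induction φ generalizing p with
  | elemAct t =>
    simp only [Sat]
    suffices hs : (t.sum fun x u => (ρ.restrict H).actAlg (FreeGroup.lift q) (p x) u)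
        = (t.sum fun x u => ρ.actAlg (FreeGroup.lift (fun y => (q y : ρ.G))) (p x) u) by
      rw [hs]; rfl
    apply Finsupp.sum_congr
    intro x hx
    unfold Rep.actAlg
    apply Finsupp.sum_congr
    intro f hf
    have hl : ((FreeGroup.lift q f : H) : ρ.G) = FreeGroup.lift (fun y => (q y : ρ.G)) f := by
      have : (H.subtype.comp (FreeGroup.lift q)) = FreeGroup.lift (fun y => (q y : ρ.G)) := by
        ext y
        simp
      exact DFunLike.congr_fun this f
    have := act_restrict ρ H (p x) (FreeGroup.lift q f)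
    rw [hl] at this
    rw [← this]
    rfl
  | elemGrp f => exact absurd hφ (by simp [Formula.IsAction])
  | and φ ψ ih1 ih2 =>
    simp only [Sat]
    rw [ih1 hφ.1 p, ih2 hφ.2 p]
  | or φ ψ ih1 ih2 =>
    simp only [Sat]
    rw [ih1 hφ.1 p, ih2 hφ.2 p]
  | not φ ih =>
    simp only [Sat]
    rw [ih hφ p]
  | allX x φ ih =>
    simp only [Sat]
    exact forall_congr' fun m => ih hφ _
  | exX x φ ih =>
    simp only [Sat]
    exact exists_congr fun m => ih hφ _
  | allY y φ => exact absurd hφ (by simp [Formula.IsAction])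
  | exY y φ => exact absurd hφ (by simp [Formula.IsAction])

/-! ## The finitary symmetric group -/

/-- Permutations of `ℕ` moving only finitely many points. -/
def Fin0 : Subgroup (Equiv.Perm ℕ) where
  carrier := {σ | ∃ N, ∀ i, N ≤ i → σ i = i}
  one_mem' := ⟨0, fun i _ => rfl⟩
  mul_mem' := by
    rintro σ τ ⟨N, hN⟩ ⟨M, hM⟩
    refine ⟨max N M, fun i hi => ?_⟩
    rw [Equiv.Perm.mul_apply, hM i (le_trans (le_max_right _ _) hi),
      hN i (le_trans (le_max_left _ _) hi)]
  inv_mem' := by
    rintro σ ⟨N, hN⟩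
    refine ⟨N, fun i hi => ?_⟩
    rw [Equiv.Perm.inv_eq_iff_eq, hN i hi]

/-- The group, in the right universe. -/
abbrev GG : Type w := ULift.{w} Fin0

/-- The module. -/
abbrev VV (K : Type u) [Ring K] : Type (max u v) := ULift.{v} (ℕ →₀ K)

/-- The permutation action of `σ` on `ULift (ℕ →₀ K)`. -/
noncomputable def permAct (K : Type u) [Ring K] (σ : Equiv.Perm ℕ) :
    VV.{u, v} K ≃ₗ[K] VV.{u, v} K :=
  ULift.moduleEquiv.trans ((Finsupp.domLCongr σ).trans ULift.moduleEquiv.symm)

lemma permAct_apply (σ : Equiv.Perm ℕ) (x : VV.{u, v} K) (i : ℕ) :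
    (permAct K σ x).down i = x.down (σ.symm i) := by
  simp [permAct, Finsupp.domLCongr_apply]

/-- The representation of the finitary symmetric group on `K^(ℕ)` (right action
`x ∘ σ`, where `(x ∘ σ)(i) = x (σ i)`). -/
noncomputable def rho (K : Type u) [Ring K] : Rep.{u, max u v, w} K where
  V := VV.{u, v} K
  G := GG.{w}
  hom :=
    { toFun := fun σ => MulOpposite.op (permAct K (σ.down : Equiv.Perm ℕ)⁻¹)
      map_one' := by
        apply MulOpposite.unop_injective
        ext x i
        simp only [MulOpposite.unop_op, MulOpposite.unop_one, LinearEquiv.coe_one, id_eq,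
          permAct_apply]
        rfl
      map_mul' := by
        intro σ τ
        apply MulOpposite.unop_injective
        ext x i
        simp only [MulOpposite.unop_op, MulOpposite.unop_mul, LinearEquiv.mul_apply, permAct_apply]
        rfl }

lemma rho_act (x : VV.{u, v} K) (σ : GG.{w}) (i : ℕ) :
    ULift.down ((rho.{u, v, w} K).act x σ) i = x.down ((σ.down : Equiv.Perm ℕ) i) := by
  show (permAct K (σ.down : Equiv.Perm ℕ)⁻¹ x).down i = _
  rw [permAct_apply]
  rfl

lemma rho_not_mem : rho.{u, v, w} K ∉ Fix K := by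
  rintro ⟨x, hx, hfix⟩
  apply hx
  obtain ⟨x⟩ : VV.{u, v} K := x
  have hall : ∀ i j : ℕ, x i = x j := by
    intro i j
    have hmem : Equiv.swap i j ∈ Fin0 := by
      refine ⟨max i j + 1, fun k hk => ?_⟩
      apply Equiv.swap_apply_of_ne_of_ne
      · rintro rfl
        have := le_max_left k j
        omega
      · rintro rfl
        have := le_max_right i k
        omega
    have h1 := hfix (ULift.up ⟨Equiv.swap i j, hmem⟩)
    have h2 := rho_act.{u, v, w} (K := K) (ULift.up x) (ULift.up ⟨Equiv.swap i j, hmem⟩) i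
    rw [h1] at h2
    simpa using h2
  have hzero : x = 0 := by
    obtain ⟨n, hn⟩ := Infinite.exists_notMem_finset x.support
    ext i
    rw [hall i n]
    simpa using hn
  show ULift.up x = 0
  rw [hzero]
  rfl

theorem result (K : Type u) [Ring K] [Nontrivial K] (X : Type a) (Y : Type b)
    [Infinite X] [Infinite Y] :
    ∃ C : Set (Rep.{u, max u v, w} K), Abstract C ∧ Axiomatizable X Y C ∧ Saturated C ∧
      RightHereditary C ∧ ¬ DefinedByAction X Y C := by
  classical
  refine ⟨Fix K, abstract_fix, axiomatizable_fix, saturated_fix, rightHereditary_fix, ?_⟩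
  rintro ⟨T, hT, hC⟩
  have hnot := rho_not_mem.{u, v, w} (K := K)
  rw [hC] at hnot
  simp only [ModelsOf, Set.mem_ofPred_eq, Holds, not_forall] at hnot
  obtain ⟨φ, hφ, p, q, hpq⟩ := hnot
  -- replace the assignment by one with finitely many values
  set q' : Y → (rho.{u, v, w} K).G := fun y => if y ∈ gvars φ then q y else 1 with hq'
  have h1 : ¬ Sat (rho.{u, v, w} K) φ p q' := by
    rwa [← sat_congr _ φ (hT φ hφ) p q q' (fun y hy => by simp [hq', hy])]
  -- a common bound for the supports
  have hbound : ∃ N : ℕ, ∀ y, ∀ i, N ≤ i →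
      ((ULift.down (q' y) : Fin0) : Equiv.Perm ℕ) i = i := by
    have hb : ∀ y, ∃ N : ℕ, ∀ i, N ≤ i → ((ULift.down (q y) : Fin0) : Equiv.Perm ℕ) i = i :=
      fun y => (ULift.down (q y) : Fin0).2
    choose N hN using hb
    refine ⟨(gvars φ).sup N, fun y i hi => ?_⟩
    by_cases hy : y ∈ gvars φ
    · simp only [hq', if_pos hy]
      exact hN y i (le_trans (Finset.le_sup hy) hi)
    · simp only [hq', if_neg hy]
      rfl
  obtain ⟨N, hN⟩ := hbound
  -- the subgroup fixing all `i ≥ N`
  let H : Subgroup (rho.{u, v, w} K).G :=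
    { carrier := {σ | ∀ i, N ≤ i → ((ULift.down σ : Fin0) : Equiv.Perm ℕ) i = i}
      one_mem' := fun i _ => rfl
      mul_mem' := by
        intro σ τ hσ hτ i hi
        show ((ULift.down σ : Fin0) : Equiv.Perm ℕ) (((ULift.down τ : Fin0) : Equiv.Perm ℕ) i) = i
        rw [hτ i hi, hσ i hi]
      inv_mem' := by
        intro σ hσ i hi
        show ((ULift.down σ : Fin0) : Equiv.Perm ℕ)⁻¹ i = i
        rw [Equiv.Perm.inv_eq_iff_eq, hσ i hi] }
  have hmem : (rho.{u, v, w} K).restrict H ∈ Fix.{u, max u v, w} K := by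
    refine ⟨(ULift.up (Finsupp.single N 1) : VV.{u, v} K), ?_, ?_⟩
    · intro h
      have h2 : (Finsupp.single N (1 : K)) = 0 := congrArg ULift.down h
      have h3 := DFunLike.congr_fun h2 N
      simp at h3
    · intro σ
      obtain ⟨σ, hσ⟩ : H := σ
      show (rho.{u, v, w} K).act (ULift.up (Finsupp.single N 1) : VV.{u, v} K) σ = _
      apply ULift.down_injective
      ext i
      refine (rho_act.{u, v, w} (K := K) (ULift.up (Finsupp.single N 1)) σ i).trans ?_
      show Finsupp.single N (1 : K) (((ULift.down σ : Fin0) : Equiv.Perm ℕ) i)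
        = Finsupp.single N (1 : K) i
      by_cases hi : N ≤ i
      · rw [hσ i hi]
      · have hne : ((ULift.down σ : Fin0) : Equiv.Perm ℕ) i ≠ N := by
          intro h
          have h2 := hσ N le_rfl
          have := ((ULift.down σ : Fin0) : Equiv.Perm ℕ).injective
            (h.trans h2.symm)
          omega
        rw [Finsupp.single_apply, Finsupp.single_apply, if_neg (Ne.symm hne), if_neg (by omega)]
  rw [hC] at hmem
  have h2 := hmem φ hφ p (fun y => (⟨q' y, hN y⟩ : H))
  rw [sat_restrict _ _ _ (hT φ hφ)] at h2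
  exact h1 h2

end Pool.Agent.Results.MP_98e941_al.FixedVectorClass
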